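import Pool.Agent.H62.HIL.Tg
import Pool.Agent.H62.HIL.Norm

/-!
# MP_70ba79_ag, THEOREM S, chapter 5: row CLS
-/

set_option autoImplicit false

namespace Pool.Agent.H94.SFH

open MvPolynomial SC Pool.Agent.H27.LV
open Pool.Agent.H92.SF Pool.Agent.H3.SF

/-- CLS -/
theorem pf_CLS : T_CLS := by
  intro L _ o c x e g hx hxi he hc
  have hg0 : ∃ l, g l ≠ 0 := by
    by_contra hcon
    push Not at hcon
    have : x ^ c = 0 := by rw [hc]; simp [hcon]
    exact pow_ne_zero c hx this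
  obtain ⟨l, -, hl⟩ := Finset.exists_max_image (Finset.univ : Finset (Fin 3))
    (fun i => o.valuation (g i)) ⟨0, Finset.mem_univ _⟩
  have hgl : g l ≠ 0 := by
    intro h0
    obtain ⟨i, hi⟩ := hg0
    have h1 := hl i (Finset.mem_univ _)
    rw [h0, map_zero] at h1
    exact hi ((map_eq_zero o.valuation).mp (le_antisymm h1 zero_le))
  have hdiv : ∀ i, g i / g l ∈ o := by
    intro i
    rw [← ValuationSubring.valuation_le_one_iff, map_div₀]
    exact div_le_one_of_le₀ (hl i (Finset.mem_univ _)) zero_le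
  refine ⟨l, hgl, ?_, hdiv⟩
  have h2 : (g l)⁻¹ = ∑ i, e i * (x⁻¹) ^ c * (g i / g l) := by
    have h3 : ∑ i, e i * (x⁻¹) ^ c * (g i / g l) = (x⁻¹) ^ c * (∑ i, e i * g i) * (g l)⁻¹ := by
      rw [Finset.mul_sum, Finset.sum_mul]
      refine Finset.sum_congr rfl fun i _ => ?_
      rw [div_eq_mul_inv]; ring
    rw [h3, ← hc, ← mul_pow, inv_mul_cancel₀ hx, one_pow, one_mul]
  rw [h2]
  exact sum_mem fun i _ => mul_mem (mul_mem (he i) (pow_mem hxi c)) (hdiv i)

end Pool.Agent.H94.SFH
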